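import Mathlib

set_option autoImplicit false

namespace Pool.Agent.Results.MP_ca77af_co.Full

open Finset

/-- `D` is an up-color dominating set for the colouring `c`. -/
def UpDom {V : Type} (G : SimpleGraph V) (c : V → ℕ) (D : Finset V) : Prop :=
  (∀ v, v ∉ D → ∃ d ∈ D, G.Adj v d ∧ c v < c d) ∧ ∀ d ∈ D, c d ≠ 0

/-- The up-color domination weight: least weight over all proper colourings and all up-color
dominating sets. -/
noncomputable def upWeight {V : Type} (G : SimpleGraph V) : ℕ :=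
  sInf {w | ∃ c : V → ℕ, (∀ u v, G.Adj u v → c u ≠ c v) ∧
    ∃ D : Finset V, UpDom G c D ∧ ∑ d ∈ D, c d = w}

/-- The Roman domination number. -/
noncomputable def roman {V : Type} [Fintype V] (G : SimpleGraph V) : ℕ :=
  sInf {w | ∃ f : V → ℕ, (∀ v, f v ≤ 2) ∧ (∀ u, f u = 0 → ∃ v, G.Adj u v ∧ f v = 2) ∧
    ∑ v, f v = w}

theorem bip {V : Type} [Fintype V] (G : SimpleGraph V) (hG : G.Colorable 2) :
    upWeight G ≤ roman G := by
  classical
  obtain ⟨f, hf2, hf0, hw⟩ : ∃ f : V → ℕ, (∀ v, f v ≤ 2) ∧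
      (∀ u, f u = 0 → ∃ v, G.Adj u v ∧ f v = 2) ∧ ∑ v, f v = roman G :=
    Nat.sInf_mem (⟨∑ _v : V, 1, fun _ => 1, fun _ => by norm_num, fun _ h => by simp at h, rfl⟩ :
      Set.Nonempty {w | ∃ f : V → ℕ, (∀ v, f v ≤ 2) ∧
        (∀ u, f u = 0 → ∃ v, G.Adj u v ∧ f v = 2) ∧ ∑ v, f v = w})
  obtain ⟨C⟩ := hG
  let A : V → Prop := fun v => C v = 0 ∧ ∃ w, G.Adj v w
  have hAB : ∀ u v, G.Adj u v → (A u ↔ ¬ A v) := by
    intro u v h
    have h1 := C.valid h
    have h2 : ∀ a b : Fin 2, a ≠ b → (a = 0 ↔ ¬ b = 0) := by decide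
    have h3 := h2 _ _ h1
    simp only [A]
    constructor
    · rintro ⟨a, -⟩ ⟨b, -⟩; exact h3.1 a b
    · intro a
      exact ⟨h3.2 fun b => a ⟨b, u, h.symm⟩, v, h⟩
  let p : V → V := fun v => if h : ∃ w, G.Adj v w then h.choose else v
  have hp : ∀ v, A v → G.Adj v (p v) := fun v hv => by
    simp only [p, dif_pos hv.2]; exact hv.2.choose_spec
  let c : V → ℕ := fun v => if A v then (if f v = 2 then 2 else 0) else 1
  let D1 : Finset V := univ.filter fun v => (A v ∧ f v = 2) ∨ (¬ A v ∧ f v ≠ 0)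
  let S : Finset V := univ.filter fun v => A v ∧ f v = 1
  have hc1 : ∀ v ∈ S.image p, c v = 1 := by
    intro v hv
    obtain ⟨u, hu, rfl⟩ := mem_image.1 hv
    have hu' := (mem_filter.1 hu).2.1
    have := (hAB _ _ (hp u hu')).1 hu'
    simp [c, this]
  have hle : ∑ d ∈ D1 ∪ S.image p, c d ≤ roman G := by
    have e1 : ∑ d ∈ D1 ∪ S.image p, c d ≤ ∑ d ∈ D1, c d + ∑ d ∈ S.image p, c d := by
      rw [← sum_union_inter]; omega
    have e2 : ∑ d ∈ S.image p, c d ≤ ∑ d ∈ S, f d := by
      rw [sum_congr rfl hc1, sum_congr rfl (fun d hd => (mem_filter.1 hd).2.2 : ∀ d ∈ S, f d = 1)]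
      simpa using card_image_le
    have e3 : ∑ d ∈ D1, c d ≤ ∑ d ∈ D1, f d := by
      refine sum_le_sum fun d hd => ?_
      have := (mem_filter.1 hd).2
      simp only [c]
      split_ifs with h1 h2
      · omega
      · omega
      · have : f d ≠ 0 := by tauto
        omega
    have e4 : ∑ d ∈ D1, f d + ∑ d ∈ S, f d ≤ ∑ v, f v := by
      rw [← sum_union]
      · exact sum_le_sum_of_subset (subset_univ _)
      · rw [disjoint_left]
        intro a ha hb
        have h1 := (mem_filter.1 ha).2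
        have h2 := (mem_filter.1 hb).2
        rcases h1 with h1 | h1
        · omega
        · exact h1.1 h2.1
    omega
  refine le_trans (Nat.sInf_le ⟨c, ?_, D1 ∪ S.image p, ⟨?_, ?_⟩, rfl⟩) hle
  · intro u v h
    have := hAB u v h
    simp only [c]
    split_ifs <;> first | omega | tauto
  · intro v hv
    rw [mem_union, not_or] at hv
    have h1 : ¬ ((A v ∧ f v = 2) ∨ (¬ A v ∧ f v ≠ 0)) := by simpa [D1] using hv.1
    by_cases hA : A v
    · have h2 : f v ≠ 2 := fun h => h1 (Or.inl ⟨hA, h⟩)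
      by_cases h3 : f v = 0
      · obtain ⟨w, hw1, hw2⟩ := hf0 v h3
        have hw3 := (hAB _ _ hw1).1 hA
        exact ⟨w, mem_union_left _ (by simp [D1, hw3, hw2]), hw1, by simp [c, hA, h2, hw3]⟩
      · have h4 : p v ∈ S.image p := mem_image_of_mem _ (by
          have := hf2 v
          simp only [S, mem_filter, mem_univ, true_and]
          exact ⟨hA, by omega⟩)
        exact ⟨p v, mem_union_right _ h4, hp v hA, by rw [hc1 _ h4]; simp [c, hA, h2]⟩
    · have h3 : f v = 0 := by
        by_contra h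
        exact h1 (Or.inr ⟨hA, h⟩)
      obtain ⟨w, hw1, hw2⟩ := hf0 v h3
      have hw3 : A w := (hAB _ _ hw1.symm).2 hA
      exact ⟨w, mem_union_left _ (by simp [D1, hw3, hw2]), hw1, by simp [c, hA, hw3, hw2]⟩
  · intro d hd
    rcases mem_union.1 hd with h | h
    · have := (mem_filter.1 h).2
      simp only [c]
      split_ifs <;> first | omega | tauto
    · rw [hc1 d h]; norm_num

/-- Every finite bipartite graph, in particular every tree, has up-color domination weight at most
its Roman domination number. -/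
theorem result : ∀ (V : Type) [Fintype V] (G : SimpleGraph V), (G.IsTree ∨ G.Colorable 2) →
    upWeight G ≤ roman G := by
  intro V _ G h
  rcases h with h | h
  · exact bip G h.isAcyclic.isBipartite
  · exact bip G h

end Pool.Agent.Results.MP_ca77af_co.Full
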